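import Pool.Agent.Helper66_D2.Stmts
import Pool.Agent.Helper66_D1.Tool
import Pool.Agent.Helper26_D1.Mcd
import Pool.Agent.Helper20_PP.Fun

/-!
# Squad PP, part D2: left and right translations, elements supported on a subgroup
-/

open scoped BigOperators

set_option linter.unusedSectionVars false

noncomputable section

namespace Pool.Agent.PP.CD2.H98

open Pool.Agent.Helper51_AWC Pool.Agent.Helper79_WRA Pool.Agent.PP Pool.Agent.PP.CD2

variable {F : Type} [Field F] {G : Type} [Group G]

/-- left translation -/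
def lt (F : Type) [Field F] {G : Type} [Group G] (g : G) : (G → F) →ₗ[F] (G → F) :=
  LinearMap.funLeft F F (fun h => g⁻¹ * h)

/-- right translation -/
def rt (F : Type) [Field F] {G : Type} [Group G] (g : G) : (G → F) →ₗ[F] (G → F) :=
  LinearMap.funLeft F F (fun h => h * g⁻¹)

theorem lt_apply (g : G) (x : G → F) (h : G) : lt F g x h = x (g⁻¹ * h) := rfl

theorem rt_apply (g : G) (x : G → F) (h : G) : rt F g x h = x (h * g⁻¹) := rfl

/-- multiplication from the right as a linear map -/
def mR [Finite G] (z : G → F) : (G → F) →ₗ[F] (G → F) where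
  toFun x := mulF x z
  map_add' x y := H20.add_mulF x y z
  map_smul' c x := H20.smul_mulF c x z

/-- multiplication from the left as a linear map -/
def mL [Finite G] (z : G → F) : (G → F) →ₗ[F] (G → F) where
  toFun x := mulF z x
  map_add' x y := H20.mulF_add z x y
  map_smul' c x := H20.mulF_smul c z x

theorem mR_apply [Finite G] (z x : G → F) : mR z x = mulF x z := rfl

theorem mL_apply [Finite G] (z x : G → F) : mL z x = mulF z x := rfl

theorem pwR_eq [Finite G] (w x : G → F) (s : ℕ) : pwR w s x = ((mR w) ^ s) x := by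
  rw [Module.End.pow_apply]
  rfl

theorem pwF_eq [Finite G] (w x : G → F) (s : ℕ) : pwF w s x = ((mL w) ^ s) x := by
  rw [Module.End.pow_apply]
  rfl

/-- a product is a sum of right translates of the left factor -/
theorem mulF_rt [Fintype G] (x z : G → F) : mulF x z = ∑ c : G, z c • rt F c x := by
  funext h
  rw [Finset.sum_apply]
  change ∑ᶠ t, x t * z (t⁻¹ * h) = _
  rw [finsum_eq_sum_of_fintype]
  refine Fintype.sum_equiv ((Equiv.inv G).trans (Equiv.mulRight h)) _ _ fun t => ?_
  change x t * z (t⁻¹ * h) = z (t⁻¹ * h) * x (h * (t⁻¹ * h)⁻¹)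
  rw [mul_comm, mul_inv_rev, inv_inv, ← mul_assoc, mul_inv_cancel, one_mul]

/-- a product is a sum of left translates of the right factor -/
theorem mulF_lt [Fintype G] (z x : G → F) : mulF z x = ∑ c : G, z c • lt F c x := by
  funext h
  rw [Finset.sum_apply]
  change ∑ᶠ t, z t * x (t⁻¹ * h) = _
  rw [finsum_eq_sum_of_fintype]
  rfl

/-- a linear map which commutes with the right translations by `C` commutes with the right
multiplication by elements supported on `C` -/
theorem comm_mR [Finite G] {C : Subgroup G} (Ψ : (G → F) →ₗ[F] (G → F))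
    (hΨ : ∀ c ∈ C, ∀ x, Ψ (rt F c x) = rt F c (Ψ x)) {z : G → F} (hz : SpF C z) (x : G → F) :
    Ψ (mulF x z) = mulF (Ψ x) z := by
  have := Fintype.ofFinite G
  rw [mulF_rt, mulF_rt, map_sum]
  refine Finset.sum_congr rfl fun c _ => ?_
  by_cases hc : c ∈ C
  · rw [map_smul, hΨ c hc]
  · rw [hz c hc, zero_smul, zero_smul, map_zero]

/-- a linear map which commutes with the left translations by `C` commutes with the left
multiplication by elements supported on `C` -/
theorem comm_mL [Finite G] {C : Subgroup G} (Ψ : (G → F) →ₗ[F] (G → F))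
    (hΨ : ∀ c ∈ C, ∀ x, Ψ (lt F c x) = lt F c (Ψ x)) {z : G → F} (hz : SpF C z) (x : G → F) :
    Ψ (mulF z x) = mulF z (Ψ x) := by
  have := Fintype.ofFinite G
  rw [mulF_lt, mulF_lt, map_sum]
  refine Finset.sum_congr rfl fun c _ => ?_
  by_cases hc : c ∈ C
  · rw [map_smul, hΨ c hc]
  · rw [hz c hc, zero_smul, zero_smul, map_zero]

/-- elements commuting with `C` commute with elements supported on `C` -/
theorem cm_comm [Finite G] {C : Subgroup G} {a z : G → F} (ha : CmF C a) (hz : SpF C z) :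
    mulF a z = mulF z a := by
  have := Fintype.ofFinite G
  rw [mulF_rt, mulF_lt]
  refine Finset.sum_congr rfl fun c _ => ?_
  by_cases hc : c ∈ C
  · congr 1
    funext h
    rw [rt_apply, lt_apply, ← ha c hc (c⁻¹ * h)]
    congr 1
    group
  · rw [hz c hc, zero_smul, zero_smul]

/-- restriction to the subgroup `C` -/
def cut (C : Subgroup G) : (G → F) →ₗ[F] (G → F) where
  toFun x := open Classical in fun t => if t ∈ C then x t else 0
  map_add' x y := by
    funext t
    simp only [Pi.add_apply]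
    split_ifs
    · rfl
    · rw [add_zero]
  map_smul' c x := by
    funext t
    simp only [Pi.smul_apply, RingHom.id_apply, smul_eq_mul]
    split_ifs
    · rfl
    · rw [mul_zero]

theorem cut_in {C : Subgroup G} (x : G → F) {t : G} (ht : t ∈ C) : cut C x t = x t := if_pos ht

theorem cut_out {C : Subgroup G} (x : G → F) {t : G} (ht : t ∉ C) : cut C x t = 0 := if_neg ht

theorem cut_rt (C : Subgroup G) {c : G} (hc : c ∈ C) (x : G → F) :
    cut C (rt F c x) = rt F c (cut C x) := by
  funext t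
  by_cases ht : t ∈ C
  · rw [cut_in _ ht, rt_apply, rt_apply, cut_in _ (C.mul_mem ht (C.inv_mem hc))]
  · rw [cut_out _ ht, rt_apply, cut_out]
    intro h
    exact ht ((Subgroup.mul_mem_cancel_right _ (C.inv_mem hc)).1 h)

theorem cut_lt (C : Subgroup G) {c : G} (hc : c ∈ C) (x : G → F) :
    cut C (lt F c x) = lt F c (cut C x) := by
  funext t
  by_cases ht : t ∈ C
  · rw [cut_in _ ht, lt_apply, lt_apply, cut_in _ (C.mul_mem (C.inv_mem hc) ht)]
  · rw [cut_out _ ht, lt_apply, cut_out]
    intro h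
    exact ht ((Subgroup.mul_mem_cancel_left _ (C.inv_mem hc)).1 h)

theorem cut_mulF_right [Finite G] {C : Subgroup G} {z : G → F} (hz : SpF C z) (x : G → F) :
    cut C (mulF x z) = mulF (cut C x) z := comm_mR (cut C) (fun _ hc x => cut_rt C hc x) hz x

theorem cut_mulF_left [Finite G] {C : Subgroup G} {z : G → F} (hz : SpF C z) (x : G → F) :
    cut C (mulF z x) = mulF z (cut C x) := comm_mL (cut C) (fun _ hc x => cut_lt C hc x) hz x

theorem cut_sp (C : Subgroup G) (x : G → F) : SpF C (cut C x) := fun _ ht => cut_out x ht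

/-- the representation on an invariant space of functions by left translation -/
def sRep (V : Submodule F (G → F)) (hV : ∀ g : G, ∀ x ∈ V, lt F g x ∈ V) :
    Representation F G V where
  toFun g := (lt F g).restrict (hV g)
  map_one' := by
    ext x t
    change x.1 ((1 : G)⁻¹ * t) = x.1 t
    rw [inv_one, one_mul]
  map_mul' g h := by
    ext x t
    change x.1 ((g * h)⁻¹ * t) = x.1 (h⁻¹ * (g⁻¹ * t))
    rw [mul_inv_rev, mul_assoc]

theorem sRep_apply (V : Submodule F (G → F)) (hV : ∀ g : G, ∀ x ∈ V, lt F g x ∈ V) (g : G) (x : V) :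
    ((sRep V hV g x : V) : G → F) = lt F g x := rfl

theorem evV_sRep [Finite G] (V : Submodule F (G → F)) (hV : ∀ g : G, ∀ x ∈ V, lt F g x ∈ V)
    (a : G → F) (x : V) : ((evV (sRep V hV) a x : V) : G → F) = mulF a x := by
  have := Fintype.ofFinite G
  rw [D66.evV_apply, mulF_lt, AddSubmonoidClass.coe_finsetSum]
  rfl

theorem evV_sRep_pow [Finite G] (V : Submodule F (G → F)) (hV : ∀ g : G, ∀ x ∈ V, lt F g x ∈ V)
    (w : G → F) (k : ℕ) (x : V) : ((((evV (sRep V hV) w) ^ k) x : V) : G → F) = pwF w k x := by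
  induction k generalizing x with
  | zero => rfl
  | succ k ih =>
    rw [pow_succ, Module.End.mul_apply, ih, evV_sRep]
    rfl

/-- independence in a nilpotent module -/
theorem nil_li {E : Type} [AddCommGroup E] [Module F E] (W : Module.End F E) (v : E) (q : ℕ)
    (hq : (W ^ q) v = 0) (hn : (W ^ (q - 1)) v ≠ 0) (α : ℕ → F)
    (h : ∑ s ∈ Finset.range q, α s • (W ^ s) (W v) = 0) : ∀ s, s + 1 < q → α s = 0 := by
  intro s
  induction s using Nat.strong_induction_on with
  | _ s ih =>
  intro hs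
  have hz : ∀ k, q ≤ k → (W ^ k) v = 0 := by
    intro k hk
    obtain ⟨j, rfl⟩ := Nat.exists_eq_add_of_le hk
    rw [add_comm, pow_add, Module.End.mul_apply, hq, map_zero]
  have h1 := congrArg (W ^ (q - 2 - s)) h
  rw [map_sum, map_zero, Finset.sum_eq_single s] at h1
  · rw [map_smul, ← Module.End.mul_apply, ← pow_add] at h1
    have h2 : (W ^ (q - 2 - s + s)) (W v) = (W ^ (q - 1)) v := by
      rw [← Module.End.mul_apply, ← pow_succ]
      congr 2
      omega
    rw [h2] at h1
    exact (smul_eq_zero.1 h1).resolve_right hn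
  · intro t ht hts
    rcases lt_or_gt_of_ne hts with hlt | hgt
    · rw [ih t hlt (by omega), zero_smul, map_zero]
    · rw [map_smul, ← Module.End.mul_apply, ← pow_add, ← Module.End.mul_apply, ← pow_succ,
        hz _ (by omega), smul_zero]
  · intro hs'
    exact absurd (Finset.mem_range.2 (by omega)) hs'

/-- an element of order dividing `ℓ` in a cyclic group `P` is in the subgroup of order `ℓ` -/
theorem mem_zp {ℓ : ℕ} [hℓ : Fact ℓ.Prime] [Finite G] {P : Subgroup G} (hP : IsCyclic P) {y₁ : G}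
    (hy : y₁ ∈ P) (ho : orderOf y₁ = ℓ) {x : G} (hx : x ∈ P) (hxl : x ^ ℓ = 1) :
    x ∈ Subgroup.zpowers y₁ := by
  classical
  have := Fintype.ofFinite P
  have h1 : ((Finset.univ : Finset P).filter fun a => a ^ ℓ = 1).card ≤ ℓ :=
    IsCyclic.card_pow_eq_one_le hℓ.out.pos
  have := Fintype.ofFinite (Subgroup.zpowers (⟨y₁, hy⟩ : P))
  have h2 : (Finset.univ : Finset P).filter (fun a => a ∈ Subgroup.zpowers (⟨y₁, hy⟩ : P)) =
      (Finset.univ : Finset P).filter fun a => a ^ ℓ = 1 := by
    apply Finset.eq_of_subset_of_card_le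
    · intro a ha
      rw [Finset.mem_filter] at ha ⊢
      refine ⟨Finset.mem_univ _, ?_⟩
      obtain ⟨k, hk⟩ := Subgroup.mem_zpowers_iff.1 ha.2
      have h3 : (⟨y₁, hy⟩ : P) ^ ℓ = 1 := by
        rw [← ho]
        apply Subtype.ext
        exact pow_orderOf_eq_one y₁
      rw [← hk, ← zpow_natCast, ← zpow_mul, mul_comm, zpow_mul, zpow_natCast, h3, one_zpow]
    · refine h1.trans ?_
      have h4 : Nat.card (Subgroup.zpowers (⟨y₁, hy⟩ : P)) = ℓ := by
        rw [Nat.card_zpowers, Subgroup.orderOf_mk, ho]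
      have h5 : ((Finset.univ : Finset P).filter
          (fun a => a ∈ Subgroup.zpowers (⟨y₁, hy⟩ : P))).card =
          Nat.card (Subgroup.zpowers (⟨y₁, hy⟩ : P)) := by
        rw [Nat.card_eq_fintype_card, Fintype.card_subtype]
      rw [h5, h4]
  have h6 : (⟨x, hx⟩ : P) ∈ (Finset.univ : Finset P).filter fun a => a ^ ℓ = 1 := by
    rw [Finset.mem_filter]
    exact ⟨Finset.mem_univ _, Subtype.ext hxl⟩
  rw [← h2, Finset.mem_filter] at h6
  obtain ⟨k, hk⟩ := Subgroup.mem_zpowers_iff.1 h6.2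
  exact Subgroup.mem_zpowers_iff.2 ⟨k, by simpa using congrArg Subtype.val hk⟩

/-- `P × P` acts freely outside the normaliser of the subgroup of order `ℓ` -/
theorem free {ℓ n : ℕ} [hℓ : Fact ℓ.Prime] [Finite G] {P : Subgroup G} (hP : IsCyclic P)
    (hc : Nat.card P = ℓ ^ (n + 1)) {y₁ : G} (hy : y₁ ∈ P) (ho : orderOf y₁ = ℓ) {g : G}
    (hg : g ∉ NY y₁) {p p' : G} (hp : p ∈ P) (hp' : p' ∈ P) (h : p * g * p'⁻¹ = g) : p = 1 := by
  by_contra hp1
  have hpp : IsPGroup ℓ P := IsPGroup.of_card hc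
  obtain ⟨k, hk⟩ := (IsPGroup.iff_orderOf.1 hpp) ⟨p, hp⟩
  rw [Subgroup.orderOf_mk] at hk
  have hk0 : k ≠ 0 := by
    rintro rfl
    rw [pow_zero, orderOf_eq_one_iff] at hk
    exact hp1 hk
  obtain ⟨m, rfl⟩ := Nat.exists_eq_succ_of_ne_zero hk0
  have hpp' : p = g * p' * g⁻¹ := by
    rw [mul_inv_eq_iff_eq_mul] at h
    rw [← h]
    group
  have hu1 : p ^ ℓ ^ m ≠ 1 := by
    intro h1
    have h2 := orderOf_dvd_of_pow_eq_one h1
    rw [hk] at h2
    have h3 := Nat.pow_dvd_pow_iff_le_right hℓ.out.one_lt |>.1 h2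
    omega
  have hul : (p ^ ℓ ^ m) ^ ℓ = 1 := by
    rw [← pow_mul, ← pow_succ, ← hk, pow_orderOf_eq_one]
  have hconj : p ^ ℓ ^ m = g * p' ^ ℓ ^ m * g⁻¹ := by
    rw [hpp', conj_pow]
  have hul' : (p' ^ ℓ ^ m) ^ ℓ = 1 := by
    have h1 : p' ^ ℓ ^ m = g⁻¹ * p ^ ℓ ^ m * g := by rw [hconj]; group
    have h2 : (g⁻¹ * p ^ ℓ ^ m * g) ^ ℓ = g⁻¹ * (p ^ ℓ ^ m) ^ ℓ * g := by
      have := conj_pow (a := g⁻¹) (b := p ^ ℓ ^ m) (i := ℓ)
      rwa [inv_inv] at this
    rw [h1, h2, hul]
    group
  apply hg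
  refine D1.H26.norm_prime (ℓ := ℓ) (x := p ^ ℓ ^ m) ?_ ?_ hu1 ?_
  · rw [Nat.card_zpowers, ho]
  · exact mem_zp hP hy ho (P.pow_mem hp _) hul
  · have h1 : g⁻¹ * p ^ ℓ ^ m * g = p' ^ ℓ ^ m := by rw [hconj]; group
    rw [h1]
    exact mem_zp hP hy ho (P.pow_mem hp' _) hul'

/-- the centraliser is contained in the normaliser -/
theorem CY_le_NY (y : G) : CY y ≤ NY y := by
  intro x hx
  rw [CY, Subgroup.mem_centralizer_iff] at hx
  refine Subgroup.mem_normalizer_iff.2 fun h => ⟨fun hh => ?_, fun hh => ?_⟩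
  · have h1 := hx h hh
    rw [← h1, mul_inv_cancel_right]
    exact hh
  · have h1 := hx _ hh
    have h2 : x * h * x⁻¹ = h := by
      have h3 : x * h = x * (x * h * x⁻¹) := by rw [← h1]; group
      exact (mul_left_cancel h3).symm
    rwa [h2] at hh

end Pool.Agent.PP.CD2.H98
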