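import Pool.Agent.Helper66_D2.Tool
import Pool.Agent.Helper98_D2.Kit

/-!
# Squad PP, part D2, module UNI
-/

open scoped BigOperators

set_option linter.unusedSectionVars false

noncomputable section

namespace Pool.Agent.PP.CD2.H98

open Pool.Agent.Helper51_AWC Pool.Agent.Helper79_WRA Pool.Agent.PP Pool.Agent.PP.CD2

/-- the powers of a nilpotent operator are independent -/
theorem nil_indep {F : Type} [Field F] {E : Type} [AddCommGroup E] [Module F E]
    (W : Module.End F E) (v : E) (m : ℕ)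
    (h0 : (W ^ m) v = 0) (h1 : (W ^ (m - 1)) v ≠ 0) :
    LinearIndependent F (fun s : Fin m => (W ^ (s : ℕ)) v) := by
  classical
  rw [Fintype.linearIndependent_iff]
  intro g hg
  obtain ⟨α, hα⟩ : ∃ α : ℕ → F, α = fun s => if h : s < m then g ⟨s, h⟩ else 0 := ⟨_, rfl⟩
  have hαg : ∀ s : Fin m, α s = g s := by
    intro s
    rw [hα]
    change (if h : (s : ℕ) < m then g ⟨s, h⟩ else 0) = g s
    rw [dif_pos s.2]
  have hsum : ∑ s ∈ Finset.range m, α s • (W ^ s) v = 0 := by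
    rw [Finset.sum_range, ← hg]
    exact Finset.sum_congr rfl fun s _ => by rw [hαg]
  have hlow : ∀ s, s + 1 < m → α s = 0 := by
    apply nil_li W v m h0 h1 α
    have h2 := congrArg W hsum
    rw [map_sum, map_zero] at h2
    rw [← h2]
    refine Finset.sum_congr rfl fun s _ => ?_
    rw [map_smul, ← Module.End.mul_apply, ← Module.End.mul_apply, ← pow_succ, ← pow_succ']
  intro s
  rw [← hαg]
  by_cases hs : (s : ℕ) + 1 < m
  · exact hlow _ hs
  · have hs2 := s.2
    have hsm : (s : ℕ) = m - 1 := by omega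
    rw [Finset.sum_eq_single (m - 1)] at hsum
    · rw [hsm]
      exact (smul_eq_zero.1 hsum).resolve_right h1
    · intro t ht htm
      rw [Finset.mem_range] at ht
      rw [hlow t (by omega), zero_smul]
    · intro h
      exact absurd (Finset.mem_range.2 (by omega)) h

theorem uni (cdq : CdqStmt) (brs : BrsStmt) (lfu : LfuStmt) (inv : InvStmt) : UniStmt := by
  classical
  intro ℓ hℓ F _ hF G _ _ n P y₁ b w i hS
  have hD := hS.d2s
  have hU := hS.umf
  obtain ⟨k, σ, hUq, hdiv⟩ := cdq ℓ F hF G n P y₁ b w i hS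
  obtain ⟨i', hi'⟩ := lfu ℓ F hF G b hD.idem k σ hUq
  have hdvd := hdiv i' hi'
  obtain ⟨q, hq⟩ : ∃ q : ℕ, q = ℓ ^ (n + 1) := ⟨_, rfl⟩
  have hq1 : 1 ≤ q := by rw [hq]; exact Nat.one_le_pow _ _ hℓ.out.pos
  obtain ⟨b₁, hb₁⟩ : ∃ b₁ : G → F, b₁ = bY y₁ b := ⟨_, rfl⟩
  rw [← hq] at hdvd hU ⊢
  rw [← hb₁] at hU
  have hcle : Module.finrank F (Submodule.span F (crn i')) ≤ q := Nat.le_of_dvd hq1 hdvd
  have hcw : CmF (⊤ ⊓ NY y₁) w := by
    rw [top_inf_eq]
    exact hU.cw.mono hS.nc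
  have hsw : SpF (⊤ ⊓ CY y₁) w := by
    rw [top_inf_eq]
    exact hU.sw
  have hbcl : IsCl b := hD.idem.1
  obtain ⟨z, hzs, hzc, hbz, hbr⟩ := brs ℓ F hF G n ⊤ P y₁ le_top hD.cyc hD.card hD.mem hD.ord b
    (fun x hx => absurd (Subgroup.mem_top x) hx) (H66.cmF_of_cl hbcl ⊤) hD.idem.2 hD.prj1 w hsw hcw
    (by rw [← hb₁]; exact hU.bw)
  have hzcl : IsCl z := fun x y => hzc y (Subgroup.mem_top y) x
  have hyp : IsPGroup ℓ (Subgroup.zpowers y₁) :=
    IsPGroup.of_card (n := 1) (by rw [Nat.card_zpowers, hD.ord, pow_one])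
  have hmul : ∀ a c : G → F, IsCl a → IsCl c → bY y₁ (mulF a c) = mulF (bY y₁ a) (bY y₁ c) :=
    fun a c ha hc => H66.bY_mulF hF hyp (H66.cmF_of_cl ha _) (H66.cmF_of_cl hc _)
  have hpw : ∀ k : ℕ, IsCl (pwF z k b) ∧ bY y₁ (pwF z k b) = pwF w k b₁ := by
    intro k
    induction k with
    | zero => exact ⟨hbcl, hb₁.symm⟩
    | succ k ih =>
      rw [H66.pwF_succ, H66.pwF_succ]
      refine ⟨H20.isCl_mulF hzcl ih.1, ?_⟩
      rw [hmul _ _ hzcl ih.1, hbr, ih.2]
  -- in the group algebra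
  have hZ : ∀ x, H20.toMA z * x = x * H20.toMA z := (H20.isCl_iff z).1 hzcl
  have hB : H20.toMA b₁ * H20.toMA i = H20.toMA i := by rw [← H20.toMA_mulF, hU.bi]
  have hBB : H20.toMA b₁ * H20.toMA b₁ = H20.toMA b₁ := by rw [← H20.toMA_mulF, hU.bb]
  have hBW : H20.toMA b₁ * H20.toMA w = H20.toMA w := by rw [← H20.toMA_mulF, hU.bw]
  have hWB : H20.toMA w * H20.toMA b₁ = H20.toMA w := by
    rw [← H66.comm_of hU.cb hU.sw, hBW]
  have hWq : H20.toMA w ^ q = 0 := by
    have h1 : H20.toMA w ^ q * H20.toMA b₁ = 0 := by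
      rw [← H66.toMA_pwF, hU.nil, H20.toMA_zero]
    rw [← h1]
    obtain ⟨r, rfl⟩ := Nat.exists_eq_succ_of_ne_zero (by omega : q ≠ 0)
    rw [Nat.succ_eq_add_one, pow_succ, mul_assoc, hWB]
  have hnz : H20.toMA w ^ (q - 1) * H20.toMA i ≠ 0 := by
    rw [← H66.toMA_pwF]
    intro h
    apply hU.nz
    apply H20.toMA_injective
    rw [h, H20.toMA_zero]
  have hb1 : H20.toMA b₁ ≠ 0 := by
    intro h
    apply hnz
    rw [← hB, h, zero_mul, mul_zero]
  -- nilpotency of `z`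
  have hnil : ∃ N : ℕ, pwF z N b = 0 := by
    by_contra hcon
    push Not at hcon
    obtain ⟨u, hu, hbzu⟩ := inv ℓ F hF G b z hS.blk hzcl hcon
    have h1 : b₁ = mulF b₁ (mulF w (bY y₁ u)) := by
      have h2 := congrArg (bY y₁) hbzu
      rw [hmul _ _ hbcl (H20.isCl_mulF hzcl hu), hmul _ _ hzcl hu, hbr, ← hb₁] at h2
      exact h2.symm
    obtain ⟨u₁, hu₁⟩ : ∃ u₁ : G → F, u₁ = bY y₁ u := ⟨_, rfl⟩
    rw [← hu₁] at h1
    have h3 : H20.toMA b₁ = H20.toMA w * H20.toMA u₁ := by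
      have h4 := congrArg H20.toMA h1
      rw [H20.toMA_mulF, H20.toMA_mulF, ← mul_assoc, hBW] at h4
      exact h4
    have hcu : CmF (CY y₁) u₁ := by
      have h5 := H66.bY_cm (y := y₁) (H66.cmF_of_cl hu (⊤ : Subgroup G))
      rw [top_inf_eq, ← hu₁] at h5
      exact h5.mono (H66.CY_le_NY y₁)
    have h6 : Commute (H20.toMA w) (H20.toMA u₁) := (H66.comm_of hcu hU.sw).symm
    have h7 : ∀ k : ℕ, H20.toMA b₁ ^ (k + 1) = H20.toMA b₁ := by
      intro k
      induction k with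
      | zero => rw [zero_add, pow_one]
      | succ k ih => rw [pow_succ, ih, hBB]
    apply hb1
    obtain ⟨r, hr⟩ := Nat.exists_eq_succ_of_ne_zero (by omega : q ≠ 0)
    rw [← h7 r, ← Nat.succ_eq_add_one, ← hr, h3, h6.mul_pow, hWq, zero_mul]
  have hBI : H20.toMA b * H20.toMA i' = H20.toMA i' := by rw [← H20.toMA_mulF, hi'.bi]
  obtain ⟨N, hN⟩ := hnil
  have hNi : pwF z N i' = 0 := by
    apply H20.toMA_injective
    rw [H66.toMA_pwF, ← hBI, ← mul_assoc, ← H66.toMA_pwF, hN, H20.toMA_zero, zero_mul]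
  obtain ⟨m₀, X, Y, hXY⟩ := hi'.full
  have hfull : ∑ k, H20.toMA (X k) * (H20.toMA i' * H20.toMA (Y k)) = H20.toMA b := by
    rw [← hXY, H66.toMA_sum]
    exact Finset.sum_congr rfl fun k _ => by rw [H20.toMA_mulF, H20.toMA_mulF]
  have hZp : ∀ (k : ℕ) (x : MonoidAlgebra F G), H20.toMA z ^ k * x = x * H20.toMA z ^ k := by
    intro k x
    exact (Commute.pow_left (hZ x) k)
  have hup : ∀ k : ℕ, pwF z k i' = 0 → pwF z k b = 0 := by
    intro k hk
    apply H20.toMA_injective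
    rw [H66.toMA_pwF, ← hfull, Finset.mul_sum, H20.toMA_zero]
    refine Finset.sum_eq_zero fun j _ => ?_
    rw [← mul_assoc, hZp, mul_assoc, ← mul_assoc _ (H20.toMA i'), ← H66.toMA_pwF, hk,
      H20.toMA_zero, zero_mul, mul_zero]
  have hzi : pwF z (q - 1) i' ≠ 0 := by
    intro h
    have h1 := (hpw (q - 1)).2
    rw [hup _ h] at h1
    have h2 : (0 : G → F) = pwF w (q - 1) b₁ := by
      rw [← h1]
      funext t
      unfold bY br
      split_ifs <;> rfl
    apply hnz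
    rw [← hB, ← mul_assoc, ← H66.toMA_pwF, ← h2, H20.toMA_zero, zero_mul]
  -- the index of nilpotency
  have hex : ∃ N : ℕ, pwF z N i' = 0 := ⟨N, hNi⟩
  obtain ⟨m, hm⟩ : ∃ m : ℕ, m = Nat.find hex := ⟨_, rfl⟩
  have hm0 : pwF z m i' = 0 := by rw [hm]; exact Nat.find_spec hex
  have hmq : q ≤ m := by
    by_contra hcon
    apply hzi
    have h1 : q - 1 = (q - 1 - m) + m := by omega
    rw [h1, H66.pwF_add, hm0, pwF_eq, map_zero]
  have hm1 : pwF z (m - 1) i' ≠ 0 := by
    apply Nat.find_min hex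
    omega
  have hind : LinearIndependent F (fun s : Fin m => ((mL z) ^ (s : ℕ)) i') := by
    apply nil_indep
    · rw [← pwF_eq]
      exact hm0
    · rw [← pwF_eq]
      exact hm1
  have hII : H20.toMA i' * H20.toMA i' = H20.toMA i' := by rw [← H20.toMA_mulF, hi'.ii]
  have hcrn : ∀ s : ℕ, pwF z s i' ∈ crn i' := by
    intro s
    constructor
    · apply H20.toMA_injective
      rw [H20.toMA_mulF, H66.toMA_pwF, ← mul_assoc, ← hZp, mul_assoc, hII]
    · apply H20.toMA_injective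
      rw [H20.toMA_mulF, H66.toMA_pwF, mul_assoc, hII]
  have hle : Submodule.span F (Set.range fun s : Fin m => ((mL z) ^ (s : ℕ)) i') ≤
      Submodule.span F (crn i') := by
    apply Submodule.span_mono
    rintro _ ⟨s, rfl⟩
    change ((mL z) ^ (s : ℕ)) i' ∈ crn i'
    rw [← pwF_eq]
    exact hcrn s
  have hfr := finrank_span_eq_card hind
  rw [Fintype.card_fin] at hfr
  have hfr2 := Submodule.finrank_mono hle
  have hmm : m = q := by omega
  have heq := Submodule.eq_of_le_of_finrank_le hle (by omega)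
  have hzq : pwF z q i' = 0 := by rw [← hmm]; exact hm0
  refine ⟨z, i', ?_⟩
  refine
    { sb := fun x hx => absurd (Subgroup.mem_top x) hx
      sw := fun x hx => absurd (Subgroup.mem_top x) hx
      si := fun x hx => absurd (Subgroup.mem_top x) hx
      cb := H66.cmF_of_cl hbcl _
      cw := hzc
      bb := hD.idem.2
      bw := hbz
      ii := hi'.ii
      bi := hi'.bi
      nil := hup q hzq
      nz := hzi
      loc := ?_
      full := ⟨m₀, X, Y, fun k => ⟨fun x hx => absurd (Subgroup.mem_top x) hx,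
        fun x hx => absurd (Subgroup.mem_top x) hx⟩, hXY⟩ }
  intro a _
  have ha : mulF i' (mulF a i') ∈ Submodule.span F (crn i') := by
    apply Submodule.subset_span
    constructor
    · rw [← H20.mulF_assoc, hi'.ii]
    · rw [H20.mulF_assoc, H20.mulF_assoc, hi'.ii]
  rw [← heq, Submodule.mem_span_range_iff_exists_fun] at ha
  obtain ⟨c, hc⟩ := ha
  refine ⟨fun s => if h : s < m then c ⟨s, h⟩ else 0, ?_⟩
  rw [← hc, ← hmm, Finset.sum_range]
  refine Finset.sum_congr rfl fun s _ => ?_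
  change c s • _ = (if h : (s : ℕ) < m then c ⟨s, h⟩ else 0) • pwF z s i'
  rw [dif_pos s.2, pwF_eq]

end Pool.Agent.PP.CD2.H98
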