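import Pool.Agent.Helper98_D2.Kit
import Pool.Agent.Helper21_D1.Frw

/-!
# Squad PP, part D2, module XBM
-/

open scoped BigOperators

set_option linter.unusedSectionVars false

noncomputable section

namespace Pool.Agent.PP.CD2.H98

open Pool.Agent.Helper51_AWC Pool.Agent.Helper79_WRA Pool.Agent.PP Pool.Agent.PP.CD2

variable {F : Type} [Field F] {G : Type} [Group G]

/-- the kernel `E(m, h) = ∑_{g ∈ C} d(m g) z(g⁻¹ m⁻¹ h g)` -/
def ker (C : Subgroup G) (d z : G → F) (m h : G) : F :=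
  ∑ᶠ g : C, d (m * g) * z ((g : G)⁻¹ * (m⁻¹ * h) * g)

/-- the operator with the kernel `E` -/
def psi [Fintype G] (C : Subgroup G) (d z : G → F) : (G → F) →ₗ[F] (G → F) where
  toFun x := fun h => ∑ m : G, x m * ker C d z m h
  map_add' x y := by
    funext h
    simp only [Pi.add_apply, add_mul, Finset.sum_add_distrib]
  map_smul' c x := by
    funext h
    simp only [Pi.smul_apply, smul_eq_mul, RingHom.id_apply, Finset.mul_sum, mul_assoc]

theorem psi_apply [Fintype G] (C : Subgroup G) (d z x : G → F) (h : G) :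
    psi C d z x h = ∑ m : G, x m * ker C d z m h := rfl

theorem ker_mul (C : Subgroup G) (d z : G → F) {c : G} (hc : c ∈ C) (m h : G) :
    ker C d z (m * c) h = ker C d z m (h * c⁻¹) := by
  unfold ker
  refine finsum_eq_of_bijective (fun g : C => (⟨c, hc⟩ : C) * g)
    (Group.mulLeft_bijective (⟨c, hc⟩ : C)) fun g => ?_
  change d (m * c * g) * z ((g : G)⁻¹ * ((m * c)⁻¹ * h) * g) =
    d (m * (c * g)) * z ((c * g : G)⁻¹ * (m⁻¹ * (h * c⁻¹)) * (c * g))
  congr 2 <;> group

theorem psi_rt [Fintype G] (C : Subgroup G) (d z : G → F) {c : G} (hc : c ∈ C) (x : G → F) :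
    psi C d z (rt F c x) = rt F c (psi C d z x) := by
  funext h
  rw [rt_apply, psi_apply, psi_apply]
  refine Fintype.sum_equiv (Equiv.mulRight c⁻¹) _ _ fun m => ?_
  change x (m * c⁻¹) * ker C d z m h = x (m * c⁻¹) * ker C d z (m * c⁻¹) (h * c⁻¹)
  rw [← ker_mul C d z hc, inv_mul_cancel_right]

theorem xbm (prt : PrtStmt) (frw : FrwStmt) : XbmStmt := by
  classical
  intro ℓ hℓ F _ hF G _ _ n P y₁ b w i hS s hs x hix hxi hwx hxs
  have := Fintype.ofFinite G
  have := Fintype.ofFinite P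
  have hD := hS.d2s
  have hU := hS.umf
  obtain ⟨C, hC⟩ : ∃ C : Subgroup G, C = CY y₁ := ⟨_, rfl⟩
  have hNC : NY y₁ = C := by rw [hC]; exact le_antisymm hS.nc (CY_le_NY y₁)
  have hNC' : (⊤ : Subgroup G) ⊓ NY y₁ = C := by rw [top_inf_eq, hNC]
  rw [← hC] at hU ⊢
  obtain ⟨b₁, hb₁⟩ : ∃ b₁ : G → F, b₁ = bY y₁ b := ⟨_, rfl⟩
  rw [← hb₁] at hU
  obtain ⟨q, hq⟩ : ∃ q : ℕ, q = ℓ ^ (n + 1) := ⟨_, rfl⟩
  have hq1 : 1 ≤ q := by rw [hq]; exact Nat.one_le_pow _ _ hℓ.out.pos
  rw [← hq] at hs hU ⊢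
  have hPC : P ≤ C := by
    rw [hC]
    intro p hp
    rw [CY, Subgroup.mem_centralizer_iff]
    intro z hz
    have hz' : z ∈ P := (Subgroup.zpowers_le.2 hD.mem) hz
    have h2 := (@IsCyclic.commGroup P _ hD.cyc).mul_comm (⟨z, hz'⟩ : P) ⟨p, hp⟩
    exact congrArg Subtype.val h2
  -- the weights
  obtain ⟨c₁, z, hc₁, hzs, hzP, hbz⟩ := hD.prj1
  rw [hNC'] at hc₁ hzs
  rw [← hb₁] at hbz
  let _ : MulAction (P × P) G := D1.H26.bact P
  have hact : ∀ (k : P × P) (g : G), k • g = (k.1 : G) * g * (k.2 : G)⁻¹ := fun _ _ => rfl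
  obtain ⟨d, hd0, hd1⟩ := frw F (P × P) G {g : G | g ∉ C}
    (by
      rintro ⟨p, p'⟩ g hg hg'
      apply hg
      rw [hact] at hg'
      have h1 := (Subgroup.mul_mem_cancel_right C (C.inv_mem (hPC p'.2))).1 hg'
      exact (Subgroup.mul_mem_cancel_left C (hPC p.2)).1 h1)
    (by
      rintro ⟨p, p'⟩ g hg hfix
      rw [hact] at hfix
      have hg' : g ∉ NY y₁ := by rw [hNC]; exact hg
      have h1 := free hD.cyc hD.card hD.mem hD.ord hg' p.2 p'.2 hfix
      have h2 : (p' : G) = 1 := by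
        change (p : G) * g * (p' : G)⁻¹ = g at hfix
        rw [h1, one_mul, mul_eq_left] at hfix
        exact inv_eq_one.1 hfix
      exact Prod.ext (Subtype.ext h1) (Subtype.ext h2))
  -- the sum of the kernel over `P`
  obtain ⟨D', hD'⟩ : ∃ D' : G → F, D' = fun k => ∑ p : P, d ((p : G)⁻¹ * k) := ⟨_, rfl⟩
  have hD'0 : ∀ k ∈ C, D' k = 0 := by
    intro k hk
    rw [hD']
    refine Finset.sum_eq_zero fun p _ => hd0 _ ?_
    intro h
    exact h (C.mul_mem (C.inv_mem (hPC p.2)) hk)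
  have hD'1 : ∀ k ∉ C, ∑ p : P, D' (k * p) = 1 := by
    intro k hk
    have h1 := hd1 k hk
    rw [finsum_eq_sum_of_fintype, Fintype.sum_prod_type] at h1
    rw [← h1, hD', Finset.sum_comm]
    refine Fintype.sum_equiv (Equiv.inv P) _ _ fun p => ?_
    refine Fintype.sum_equiv (Equiv.inv P) _ _ fun p' => ?_
    rw [hact]
    change d ((p : G)⁻¹ * (k * p')) = d ((p : G)⁻¹ * k * ((p' : G)⁻¹)⁻¹)
    rw [inv_inv, mul_assoc]
  -- the sum over `C`
  have hsum : ∀ m t : G, ∑ g : C, D' (m * g) * z ((g : G)⁻¹ * t * g) =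
      if m ∈ C then 0 else b₁ t := by
    intro m t
    split_ifs with hm
    · refine Finset.sum_eq_zero fun g _ => ?_
      rw [hD'0 _ (C.mul_mem hm g.2), zero_mul]
    · have hX : ∀ g ∈ Finset.univ.filter (fun g : G => g ∈ C), ∀ p ∈ P,
          g * p ∈ Finset.univ.filter (fun g : G => g ∈ C) := by
        intro g hg p hp
        rw [Finset.mem_filter] at hg ⊢
        exact ⟨Finset.mem_univ _, C.mul_mem hg.2 (hPC hp)⟩
      have h1 := D1.H26.weights_eq (W := F) P (Finset.univ.filter (fun g : G => g ∈ C)) hX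
        (fun g => D' (m * g)) c₁
        (by
          intro g hg
          have hg' : m * g ∉ C := by
            intro h
            rw [Finset.mem_filter] at hg
            exact hm ((Subgroup.mul_mem_cancel_right C hg.2).1 h)
          rw [← hD'1 _ hg']
          refine Finset.sum_congr rfl fun p _ => ?_
          rw [mul_assoc])
        (by
          intro g hg
          rw [Finset.mem_filter] at hg
          have h2 := hc₁.sum g hg.2
          rwa [finsum_eq_sum_of_fintype] at h2)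
        (fun g => z (g⁻¹ * t * g))
        (by
          intro g _ p hp
          rw [← hzP _ (P.inv_mem hp) (g⁻¹ * t * g)]
          congr 1
          group)
      rw [hbz, finsum_eq_sum_of_fintype]
      have h3 : ∑ g : G, c₁ g * z (g⁻¹ * t * g) =
          ∑ g ∈ Finset.univ.filter (fun g : G => g ∈ C), c₁ g • z (g⁻¹ * t * g) := by
        rw [Finset.sum_filter]
        refine Finset.sum_congr rfl fun g _ => ?_
        split_ifs with hg
        · rfl
        · rw [hc₁.supp g hg, zero_mul]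
      rw [h3, ← h1]
      rw [← Finset.sum_subtype (Finset.univ.filter (fun g : G => g ∈ C))
        (fun g => by simp) (fun g => D' (m * g) * z (g⁻¹ * t * g))]
      rfl
  -- the trace of the operator
  have hb₁i : mulF i b₁ = i := by rw [← cm_comm hU.cb hU.si, hU.bi]
  have htr : ∀ x : G → F, mulF x i = x →
      ∑ p : P, lt F (p : G) (psi C d z (lt F (p : G)⁻¹ x)) = x - cut C x := by
    intro x hx
    have h0 : x - cut C x = mulF (x - cut C x) b₁ := by
      have h1 : mulF x b₁ = x := by rw [← hx, H20.mulF_assoc, hb₁i]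
      rw [H20.sub_mulF, ← cut_mulF_right hU.sb, h1]
    rw [h0]
    funext h
    rw [Finset.sum_apply]
    change _ = ∑ᶠ t, (x - cut C x) t * b₁ (t⁻¹ * h)
    rw [finsum_eq_sum_of_fintype]
    have h2 : ∀ p : P, lt F (p : G) (psi C d z (lt F (p : G)⁻¹ x)) h =
        ∑ m : G, x m * ∑ g : C, d ((p : G)⁻¹ * (m * g)) * z ((g : G)⁻¹ * (m⁻¹ * h) * g) := by
      intro p
      rw [lt_apply, psi_apply]
      refine Fintype.sum_equiv (Equiv.mulLeft (p : G)) _ _ fun m => ?_
      change lt F (p : G)⁻¹ x m * ker C d z m ((p : G)⁻¹ * h) = x (p * m) *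
        ∑ g : C, d ((p : G)⁻¹ * (p * m * g)) * z ((g : G)⁻¹ * ((p * m : G)⁻¹ * h) * g)
      rw [lt_apply, inv_inv]
      unfold ker
      rw [finsum_eq_sum_of_fintype]
      congr 1
      refine Finset.sum_congr rfl fun g _ => ?_
      congr 2 <;> group
    rw [Finset.sum_congr rfl fun p _ => h2 p, Finset.sum_comm]
    refine Finset.sum_congr rfl fun m _ => ?_
    rw [← Finset.mul_sum, Finset.sum_comm]
    have h3 : ∑ g : C, ∑ p : P, d ((p : G)⁻¹ * (m * g)) * z ((g : G)⁻¹ * (m⁻¹ * h) * g) =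
        ∑ g : C, D' (m * g) * z ((g : G)⁻¹ * (m⁻¹ * h) * g) := by
      refine Finset.sum_congr rfl fun g _ => ?_
      rw [hD', Finset.sum_mul]
    rw [h3, hsum]
    split_ifs with hm
    · rw [Pi.sub_apply, cut_in _ hm, sub_self, zero_mul, mul_zero]
    · rw [Pi.sub_apply, cut_out _ hm, sub_zero]
  -- the module
  obtain ⟨V, hV⟩ : ∃ V : Submodule F (G → F), ∀ v, v ∈ V ↔ mulF v i = v ∧ pwR w s v = 0 := by
    refine ⟨LinearMap.ker (mR i - 1) ⊓ LinearMap.ker ((mR w) ^ s), fun v => ?_⟩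
    rw [Submodule.mem_inf, LinearMap.mem_ker, LinearMap.mem_ker, LinearMap.sub_apply, sub_eq_zero,
      ← pwR_eq]
    rfl
  have hstab : ∀ Ψ : (G → F) →ₗ[F] (G → F), (∀ c ∈ C, ∀ x, Ψ (rt F c x) = rt F c (Ψ x)) →
      ∀ v ∈ V, Ψ v ∈ V := by
    intro Ψ hΨ v hv
    rw [hV] at hv ⊢
    refine ⟨by rw [← comm_mR Ψ hΨ hU.si, hv.1], ?_⟩
    have h1 : ∀ (k : ℕ) (v : G → F), pwR w k (Ψ v) = Ψ (pwR w k v) := by
      intro k
      induction k with
      | zero => intro v; rfl
      | succ k ih =>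
        intro v
        change pwR w k (mulF (Ψ v) w) = Ψ (pwR w k (mulF v w))
        rw [← comm_mR Ψ hΨ hU.sw, ih]
    rw [h1, hv.2, map_zero]
  have hltV : ∀ g : G, ∀ v ∈ V, lt F g v ∈ V := by
    intro g
    apply hstab
    intro c _ v
    funext t
    rw [lt_apply, rt_apply, rt_apply, lt_apply, mul_assoc]
  have hcutV : ∀ v ∈ V, cut C v ∈ V := hstab _ fun c hc v => cut_rt C hc v
  have hpsiV : ∀ v ∈ V, psi C d z v ∈ V := hstab _ fun c hc v => psi_rt C d z hc v
  have hxV : x ∈ V := (hV x).2 ⟨hxi, hxs⟩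
  obtain ⟨h, hh⟩ : ∃ h : V →ₗ[F] V, ∀ v : V,
      ((h v : V) : G → F) = (v : G → F) - cut C (v : G → F) := by
    refine ⟨LinearMap.id - (cut C).restrict hcutV, fun v => rfl⟩
  have hρ : ∀ (a : G → F) (v : V), ((evV (sRep V hltV) a v : V) : G → F) = mulF a v :=
    evV_sRep V hltV
  have hbx : mulF b₁ x = x := by rw [← hix, ← H20.mulF_assoc, hU.bi]
  have h1 := prt ℓ F hF G n ⊤ P y₁ b w hD V V (sRep V hltV) (sRep V hltV) h
    (by
      intro g hg v
      rw [hNC'] at hg
      apply Subtype.ext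
      rw [hh, sRep_apply, sRep_apply, hh, cut_lt C hg, map_sub])
    (by
      refine ⟨(psi C d z).restrict hpsiV, ?_⟩
      apply LinearMap.ext
      intro v
      apply Subtype.ext
      rw [hh, ← htr v.1 ((hV _).1 v.2).1]
      unfold trP
      rw [finsum_eq_sum_of_fintype, LinearMap.sum_apply, AddSubmonoidClass.coe_finsetSum]
      rfl)
    1 (by rw [← hq]; exact hq1) ⟨x, hxV⟩
    (by
      apply Subtype.ext
      rw [hρ, ← hb₁, hbx])
    (by
      rw [pow_one]
      apply Subtype.ext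
      rw [hρ, hwx]
      rfl)
  rw [← hq] at h1
  obtain ⟨x', hx'⟩ := h1
  have hx'2 : pwF w (q - 1) x' = x - cut C x := by
    have h2 := congrArg Subtype.val hx'
    rw [evV_sRep_pow, hh] at h2
    exact h2
  -- the part on `C`
  obtain ⟨α, hα⟩ := hU.loc (cut C x) (cut_sp C x)
  rw [← cut_mulF_right hU.si, ← cut_mulF_left hU.si, hxi, hix] at hα
  have hwq : ((mL w) ^ q) i = 0 := by
    have h2 : ∀ k : ℕ, pwF w k i = mulF (pwF w k b₁) i := by
      intro k
      rw [pwF_eq, pwF_eq]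
      induction k with
      | zero =>
        rw [pow_zero]
        exact hU.bi.symm
      | succ k ih =>
        rw [pow_succ', Module.End.mul_apply, Module.End.mul_apply, ih, mL_apply, mL_apply,
          H20.mulF_assoc]
    rw [← pwF_eq, h2, hU.nil, H20.zero_mulF]
  have hli := nil_li (mL w) i q hwq (by rw [← pwF_eq]; exact hU.nz) α (by
    have h2 : mulF w (cut C x) = 0 := by
      rw [← cut_mulF_left hU.sw, hwx, map_zero]
    rw [hα] at h2
    change mL w _ = 0 at h2
    rw [map_sum] at h2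
    rw [← h2]
    refine Finset.sum_congr rfl fun s _ => ?_
    rw [map_smul, pwF_eq, ← Module.End.mul_apply, ← Module.End.mul_apply, ← pow_succ, ← pow_succ'])
  have hcx : cut C x = α (q - 1) • pwF w (q - 1) i := by
    rw [hα, Finset.sum_eq_single (q - 1)]
    · intro t ht htq
      rw [Finset.mem_range] at ht
      rw [hli t (by omega), zero_smul]
    · intro h2
      exact absurd (Finset.mem_range.2 (by omega)) h2
  refine ⟨α (q - 1), x', ?_, ((hV _).1 x'.2).1, ((hV _).1 x'.2).2, ?_⟩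
  · rw [hx'2, ← hcx, add_sub_cancel]
  · intro t ht
    rw [← cut_in x ht, hcx]
    rfl

end Pool.Agent.PP.CD2.H98
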